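import Pool.Agent.Run7.h927.WS.M

/-!
# MP_45c923_nt: the number of shifted `k`-th powers needed for almost all integers, for almost all shifts

For a shift `θ ∈ [0,1]^s` an integer `n` is exceptional if it is not the integer part of
`(x₁ - θ₁)^k + … + (x_s - θ_s)^k` with positive integers `x_i`. Let `k ≥ 3`. For `k < s ≤ 2k` and almost every shift,
the number of the exceptional `n ≤ N` is at most `N^(2 - s/k + ε)` for every `ε > 0` and all large `N`: so `k+1` shifted
`k`-th powers suffice for almost all integers. For `s = 2k+1` and almost every shift there are only finitely many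
exceptional integers. For `s = k` and EVERY shift a positive proportion of the integers is exceptional. So for almost
all shifts the analogue of `G(k)` lies between `k+1` and `2k+1`, and `k+1` is the exact number for almost all integers.
-/

namespace Pool.Agent.Results.MP_45c923_nt.AlmostAllShifts

open MeasureTheory Filter

/-- `n` is not the integer part of a sum of `s` shifted `k`-th powers of positive integers -/
def Exceptional (s k : ℕ) (θ : Fin s → ℝ) (n : ℕ) : Prop :=
  ∀ x : Fin s → ℕ, (∀ i, 0 < x i) → ⌊∑ i, ((x i : ℝ) - θ i) ^ k⌋₊ ≠ n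

open Classical in
/-- the number of the exceptional integers up to `N` -/
noncomputable def exceptional (s k : ℕ) (θ : Fin s → ℝ) (N : ℕ) : ℕ :=
  ((Finset.range (N + 1)).filter (fun n => Exceptional s k θ n)).card

theorem result (k : ℕ) (hk : 3 ≤ k) :
    (∀ s : ℕ, k < s → s ≤ 2 * k → ∀ᵐ θ : Fin s → ℝ ∂(volume.restrict (Set.Icc 0 1)),
      ∀ ε : ℝ, 0 < ε → ∀ᶠ N : ℕ in atTop, (exceptional s k θ N : ℝ) ≤ (N : ℝ) ^ (2 - (s : ℝ) / k + ε)) ∧
    (∀ᵐ θ : Fin (2 * k + 1) → ℝ ∂(volume.restrict (Set.Icc 0 1)), ∀ᶠ n : ℕ in atTop, ¬ Exceptional (2 * k + 1) k θ n) ∧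
    (∀ θ : Fin k → ℝ, (∀ i, θ i ∈ Set.Icc (0 : ℝ) 1) → ∃ c : ℝ, 0 < c ∧
      ∀ᶠ N : ℕ in atTop, c * N ≤ (exceptional k k θ N : ℝ)) := by
  have hbox : ∀ m : ℕ, Pool.Agent.Run7.h927.WS.box (4 + m) 0 1 =
      volume.restrict (Set.Icc (0 : Fin (4 + m) → ℝ) 1) := by
    intro m
    rw [Pool.Agent.Run7.h927.WS.box_eq, Set.pi_univ_Icc]
    rfl
  refine ⟨?_, ?_, ?_⟩
  · intro s h1 h2
    obtain ⟨m, rfl⟩ : ∃ m, s = 4 + m := ⟨s - 4, by omega⟩
    have h := Pool.Agent.Run7.h927.WS.main_exc m k (by omega) h1 h2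
    rw [hbox] at h
    exact h
  · obtain ⟨s, hs⟩ : ∃ s, s = 2 * k + 1 := ⟨_, rfl⟩
    rw [← hs]
    obtain ⟨m, rfl⟩ : ∃ m, s = 4 + m := ⟨s - 4, by omega⟩
    obtain ⟨c, hc, h⟩ := Pool.Agent.Run7.h927.WS.main_shift m k (by omega) (by omega)
    rw [hbox] at h
    filter_upwards [h] with θ hθ
    have hk0 : (0 : ℝ) < k := by exact_mod_cast (by omega : 0 < k)
    have h1 : Tendsto (fun n : ℕ => (n : ℝ) + 1 / 2) atTop atTop :=
      tendsto_atTop_add_const_right _ _ tendsto_natCast_atTop_atTop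
    have h2 : Tendsto (fun ν : ℝ => ν ^ (-(1 / (20 * k)) : ℝ)) atTop (nhds 0) := by
      apply tendsto_rpow_neg_atTop
      positivity
    have h3 := h1.eventually (h2.eventually (ge_mem_nhds (by norm_num : (0 : ℝ) < 1 / 4)))
    filter_upwards [h1.eventually hθ, h3] with n hn hn'
    obtain ⟨F, hF1, hF2⟩ := hn (1 / 4) hn' (by norm_num)
    have hpos : (0 : ℝ) < F.card := by
      refine lt_of_lt_of_le ?_ hF1
      positivity
    obtain ⟨x, hx⟩ := Finset.card_pos.1 (by exact_mod_cast hpos : 0 < F.card)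
    obtain ⟨hx1, hx2⟩ := hF2 x hx
    intro hexc
    apply hexc x hx1
    rw [abs_le] at hx2
    have hn0 : (0 : ℝ) ≤ n := Nat.cast_nonneg n
    rw [Nat.floor_eq_iff (by linarith [hx2.1])]
    constructor
    · linarith [hx2.1]
    · linarith [hx2.2]
  · intro θ hθ
    exact Pool.Agent.Run7.h927.WS.few_vars k (by omega) θ hθ

end Pool.Agent.Results.MP_45c923_nt.AlmostAllShifts
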