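import Pool.Agent.Run7.h527.TP.Cb
import Pool.Agent.Results.MP_45c923_nt.AlmostAllShifts

/-!
# Sums of shifted `k`-th powers: ALL integers near aliquot sums, cototients and arithmetic derivatives, for almost all shifts

For a shift `θ ∈ [0,1]^s` an integer `n` is exceptional if it is not the integer part of `(x₁ - θ₁)^k + … + (x_s - θ_s)^k`
with positive integers `x_i`. Let `k ≥ 3` and `k < s ≤ 2k`. By the theorem `AlmostAllShifts` of this page (helper927), for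
almost every shift at most `N^(2 - s/k + ε)` of the `n ≤ N` are exceptional.

Let `g(m)` be the sum of the proper divisors of `m`, the cototient `m - φ(m)`, the arithmetic derivative `m'` (with `p' = 1`
for primes and Leibniz' rule), or any positive combination `α m + β f(m)` with `f = σ`, `φ` or the arithmetic derivative. Let
`G` have steps bounded below by a positive constant and growth at most `v^d`. For almost every shift `θ`: for
`d (2 - s/k) + κ < τ ≤ 1`, for all `m ≤ N` which have two prime factors `p ≠ q`, not dividing `m / (p q) ≥ 2`, with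
`p q ≥ m^τ`, but at most `N^(1 - δ)` of them, EVERY integer `n ≥ 1` with `|n - G (g m)| ≤ g(m)^κ` is the integer part of a sum
of `s` shifted `k`-th powers. For every `ε > 0` this is true, for some `κ > 0` and all `s ≥ (2 - ρ) k`, for ALL `m ≤ N` but
`ε N`.

Proof. Write `m = j p q`. Then `g(m) = a p q + b (p + q) + c` with integers `a ≠ 0`, `b`, `c` which depend on `j` only, and
`(a p + b) (a q + b) = a g(m) + b² - a c`. So for given `j ≤ N^(1 - τ)` every value is taken for at most `N^ε` pairs `p`, `q`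
(the tool `Run7/h527/TP`).
-/

set_option autoImplicit false

namespace Pool.Agent.Results.MP_45c923_nt.AliquotSums

open MeasureTheory Filter
open Pool.Agent.Results.MP_45c923_nt.AlmostAllShifts (Exceptional exceptional)
open Pool.Agent.N733.TG (Expanding expanding_pow)
open Run7.h527.TP (Bil Two good_nat density combine aliquot cototient deriv sig comb)

/-- the passage for one shift -/
theorem main {s k : ℕ} (hk : 3 ≤ k) (hs2 : s ≤ 2 * k) {θ : Fin s → ℝ}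
    (h : ∀ ε : ℝ, 0 < ε → ∀ᶠ N : ℕ in atTop, (exceptional s k θ N : ℝ) ≤ (N : ℝ) ^ (2 - (s : ℝ) / k + ε))
    {g : ℕ → ℕ} (hg : Bil g) {G : ℕ → ℝ} {d : ℝ} (hG : Expanding G d) {κ τ : ℝ} (hκ : 0 ≤ κ)
    (h1 : d * (2 - (s : ℝ) / k) + κ < τ) (hτ : τ ≤ 1) : ∃ δ : ℝ, 0 < δ ∧ ∃ N₀ : ℕ, ∀ N : ℕ, N₀ ≤ N →
      ({m : ℕ | 1 ≤ m ∧ m ≤ N ∧ Two τ m ∧ ¬ ∀ n : ℕ, 1 ≤ n → |(n : ℝ) - G (g m)| ≤ (g m : ℝ) ^ κ →
        ¬ Exceptional s k θ n}.ncard : ℝ) ≤ (N : ℝ) ^ (1 - δ) := by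
  classical
  have hk0 : (0 : ℝ) < k := by exact_mod_cast (by omega : 0 < k)
  have hs0 : 0 ≤ 2 - (s : ℝ) / k := by
    have h2 : (s : ℝ) ≤ 2 * k := by exact_mod_cast hs2
    rw [sub_nonneg, div_le_iff₀ hk0]
    exact h2
  obtain ⟨δ, hδ, N₀, hN₀⟩ := good_nat (fun _ => True) (fun n => ¬ Exceptional s k θ n) hg hG
    (s := 2 - (s : ℝ) / k) (κ := κ) (τ := τ) hs0 hκ h1 hτ (fun ε hε => by
      obtain ⟨N₁, hN₁⟩ := eventually_atTop.1 (h ε hε)
      refine ⟨(N₁ : ℝ) + 1, fun X hX => ?_⟩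
      have hX1 : (1 : ℝ) ≤ X := by exact_mod_cast hX
      have hp1 : 1 ≤ (X : ℝ) ^ (2 - (s : ℝ) / k + ε) := Real.one_le_rpow hX1 (by linarith)
      have hN10 : (0 : ℝ) ≤ N₁ := Nat.cast_nonneg _
      rcases Nat.lt_or_ge X N₁ with hlt | hge
      · have hsub : {t : ℕ | 1 ≤ t ∧ t ≤ X ∧ True ∧ ¬ ¬ Exceptional s k θ t} ⊆ Set.Icc 1 X :=
          fun t ht => ⟨ht.1, ht.2.1⟩
        have h3 := Set.ncard_le_ncard hsub (Set.finite_Icc 1 X)
        rw [Set.ncard_eq_toFinset_card' (Set.Icc 1 X)] at h3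
        simp only [Set.toFinset_Icc, Nat.card_Icc, add_tsub_cancel_right] at h3
        have h4 : ({t : ℕ | 1 ≤ t ∧ t ≤ X ∧ True ∧ ¬ ¬ Exceptional s k θ t}.ncard : ℝ) ≤ N₁ := by
          exact_mod_cast h3.trans hlt.le
        calc _ ≤ (N₁ : ℝ) := h4
          _ ≤ ((N₁ : ℝ) + 1) * 1 := by linarith
          _ ≤ _ := mul_le_mul_of_nonneg_left hp1 (by positivity)
      · have hsub : {t : ℕ | 1 ≤ t ∧ t ≤ X ∧ True ∧ ¬ ¬ Exceptional s k θ t} ⊆
            (((Finset.range (X + 1)).filter (fun n => Exceptional s k θ n) : Finset ℕ) : Set ℕ) := by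
          rintro t ⟨_, h4, _, h6⟩
          rw [Finset.mem_coe, Finset.mem_filter, Finset.mem_range]
          exact ⟨by omega, not_not.1 h6⟩
        have h3 := Set.ncard_le_ncard hsub (Finset.finite_toSet _)
        rw [Set.ncard_coe_finset] at h3
        have h4 : ({t : ℕ | 1 ≤ t ∧ t ≤ X ∧ True ∧ ¬ ¬ Exceptional s k θ t}.ncard : ℝ) ≤
            (exceptional s k θ X : ℝ) := by
          refine le_trans (show _ ≤ ((((Finset.range (X + 1)).filter (fun n => Exceptional s k θ n)).card : ℕ) : ℝ) by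
            exact_mod_cast h3) (le_of_eq ?_)
          unfold exceptional
          congr!
        calc _ ≤ (exceptional s k θ X : ℝ) := h4
          _ ≤ (X : ℝ) ^ (2 - (s : ℝ) / k + ε) := hN₁ X hge
          _ = 1 * (X : ℝ) ^ (2 - (s : ℝ) / k + ε) := (one_mul _).symm
          _ ≤ _ := mul_le_mul_of_nonneg_right (by linarith) (by positivity))
  refine ⟨δ, hδ, N₀, fun N hN => le_trans (le_of_eq ?_) (hN₀ N hN)⟩
  congr 2
  ext m
  simp only [Set.mem_ofPred_eq]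
  have : (∀ n : ℕ, 1 ≤ n → |(n : ℝ) - G (g m)| ≤ (g m : ℝ) ^ κ → ¬ Exceptional s k θ n) ↔
      ∀ n : ℕ, 1 ≤ n → True → |(n : ℝ) - G (g m)| ≤ (g m : ℝ) ^ κ → ¬ Exceptional s k θ n :=
    ⟨fun h n hn _ => h n hn, fun h n hn => h n hn trivial⟩
  rw [this]

/-- **Sums of shifted powers near the values of functions which are bilinear in two large primes.** Let `k ≥ 3` and
`k < s ≤ 2k`. (1) For almost every shift `θ ∈ [0,1]^s`, for all `g` of the class `Bil`, all expanding `G` of order `d` and all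
`κ ≥ 0` with `d (2 - s/k) + κ < τ ≤ 1` there is `δ > 0` such that for all large `N`, for all `m ≤ N` with `Two τ m` but at most
`N^(1 - δ)`, EVERY integer `n ≥ 1` with `|n - G (g m)| ≤ g(m)^κ` is not exceptional. (2) For all `d ≥ 1` and `ε > 0` there are
`κ > 0` and `ρ > 0` such that for `s ≥ (2 - ρ) k`, for almost every shift and all `g`, `G` as in (1), the same holds for ALL
`m ≤ N` but `ε N`. (3) The sum of the proper divisors, the cototient, the arithmetic derivative and their positive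
combinations with the identity are examples of `g`. -/
theorem result :
    (∀ k : ℕ, 3 ≤ k → ∀ s : ℕ, k < s → s ≤ 2 * k → ∀ᵐ θ : Fin s → ℝ ∂(volume.restrict (Set.Icc 0 1)),
      ∀ g : ℕ → ℕ, Bil g → ∀ (G : ℕ → ℝ) (d : ℝ), Expanding G d → ∀ κ τ : ℝ, 0 ≤ κ →
      d * (2 - (s : ℝ) / k) + κ < τ → τ ≤ 1 → ∃ δ : ℝ, 0 < δ ∧ ∃ N₀ : ℕ, ∀ N : ℕ, N₀ ≤ N →
      ({m : ℕ | 1 ≤ m ∧ m ≤ N ∧ Two τ m ∧ ¬ ∀ n : ℕ, 1 ≤ n → |(n : ℝ) - G (g m)| ≤ (g m : ℝ) ^ κ →
        ¬ Exceptional s k θ n}.ncard : ℝ) ≤ (N : ℝ) ^ (1 - δ)) ∧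
    (∀ d ε : ℝ, 1 ≤ d → 0 < ε → ∃ κ ρ : ℝ, 0 < κ ∧ 0 < ρ ∧ ∀ k : ℕ, 3 ≤ k → ∀ s : ℕ, k < s → s ≤ 2 * k →
      (2 - ρ) * k ≤ s → ∀ᵐ θ : Fin s → ℝ ∂(volume.restrict (Set.Icc 0 1)),
      ∀ g : ℕ → ℕ, Bil g → ∀ G : ℕ → ℝ, Expanding G d → ∃ N₀ : ℕ, ∀ N : ℕ, N₀ ≤ N →
      ({m : ℕ | 1 ≤ m ∧ m ≤ N ∧ ¬ ∀ n : ℕ, 1 ≤ n → |(n : ℝ) - G (g m)| ≤ (g m : ℝ) ^ κ →
        ¬ Exceptional s k θ n}.ncard : ℝ) ≤ ε * N) ∧
    (Bil aliquot ∧ Bil cototient ∧ Bil deriv ∧
      (∀ α β : ℤ, (∀ m : ℕ, 2 ≤ m → 0 < α * m + β * sig m) → Bil (comb α β sig)) ∧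
      (∀ α β : ℤ, (∀ m : ℕ, 2 ≤ m → 0 < α * m + β * Nat.totient m) → Bil (comb α β Nat.totient)) ∧
      ∀ α β : ℤ, (∀ m : ℕ, 2 ≤ m → 0 < α * m + β * deriv m) → Bil (comb α β deriv)) ∧
    ∀ α d : ℝ, 0 < α → 1 ≤ d → Expanding (fun v => α * (v : ℝ) ^ d) d := by
  refine ⟨fun k hk s hs1 hs2 => ?_, fun d ε hd hε => ?_, Run7.h527.TP.examples, fun α d hα hd => expanding_pow hα hd⟩
  · filter_upwards [(AlmostAllShifts.result k hk).1 s hs1 hs2] with θ hθ g hg G d hG κ τ hκ h1 hτ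
    exact main hk hs2 hθ hg hG hκ h1 hτ
  · obtain ⟨τ, hτ0, hτ1, hden⟩ := density (ε / 2) (by positivity)
    have hd0 : 0 < d := by linarith
    refine ⟨τ / 2, τ / (4 * d), by linarith, by positivity, fun k hk s hs1 hs2 hs3 => ?_⟩
    filter_upwards [(AlmostAllShifts.result k hk).1 s hs1 hs2] with θ hθ g hg G hG
    refine combine hε hden _ (main hk hs2 hθ hg hG (by linarith) ?_ hτ1)
    have hk0 : (0 : ℝ) < k := by exact_mod_cast (by omega : 0 < k)
    have h2 : 2 - (s : ℝ) / k ≤ τ / (4 * d) := by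
      have h3 : 2 - τ / (4 * d) ≤ (s : ℝ) / k := by
        rw [le_div_iff₀ hk0]
        exact hs3
      linarith
    have h4 : d * (2 - (s : ℝ) / k) ≤ d * (τ / (4 * d)) := mul_le_mul_of_nonneg_left h2 hd0.le
    have h5 : d * (τ / (4 * d)) = τ / 4 := by field_simp
    linarith

end Pool.Agent.Results.MP_45c923_nt.AliquotSums
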