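import Mathlib
import Pool.Agent.Run7.h757.MW.Ord
import Pool.Agent.Run7.h56.MW.LOWB

/-!
# The metric Waring number lies between `k + 1` and `k + 2 + ⌊log₂ k⌋`

Waring's problem for the sequences `⌊lam_i n ^ k⌋` (`lam_i = 1` is the classical problem), for almost all positive `lam_i`.
With `k + 2 + ⌊log₂ k⌋` terms all large integers are represented. With `k + 1 + j` terms the number of the exceptions up to
`X` is at most `X ^ (1 - 2 ^ j / k + ε)`. With `k` terms a positive proportion of the integers is not represented if the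
`lam_i` are not too small (for example if all `lam_i ≥ 1`). The variables may be restricted to regularly distributed
sets, for example to the primes.

Proof. (1) `k + 1` terms: circle method modulo `Q ≍ N ^ k`, with a mean value estimate over `lam` for the exponential sums
`∑ e(a ⌊lam n ^ k⌋)`, and Parseval's identity give an exceptional set of size `X ^ (1 - 1 / k + ε)`. (2) Each further variable
squares the density of the exceptional set: if `M` is exceptional for `s + 1` variables, then `M - ⌊lam a ^ k⌋` and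
`M - ⌊lam b ^ k⌋` are exceptional for `s` variables, for all `a, b`; with `a` fixed and `b ≍ X ^ (1 / k)` their difference is a
random number of size `X`, and an exceptional set `E` has only `|E| ^ 2 / X` pairs with this difference, on average.
(3) The lower bound compares the number of the lattice points with the volume `Γ(1 + 1 / k) ^ k ∏ lam_i ^ (-1 / k) X`.
-/

open Finset MeasureTheory Filter

open Pool.Agent.Run7.h757.MW (Reg)

namespace Pool.Agent.Results.MP_45c923_nt.MetricOrder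

/-- `M = ∑ ⌊lam_i n_i ^ k⌋` with positive integers `n_i ∈ W i` -/
def Rep (k s : ℕ) (W : Fin s → Set ℕ) (lam : Fin s → ℝ) (M : ℕ) : Prop :=
  ∃ n : Fin s → ℕ, (∀ i, 1 ≤ n i ∧ n i ∈ W i) ∧ ∑ i, ⌊lam i * (n i : ℝ) ^ k⌋₊ = M

theorem rep_iff (k s : ℕ) (W : Fin s → Set ℕ) (lam : Fin s → ℝ) (M : ℕ) :
    M ∈ Pool.Agent.Run7.h757.MW.RG k 0 s Set.univ W lam ↔ Rep k s W lam M := by
  constructor
  · rintro ⟨x, n, -, hn, hs⟩
    refine ⟨n, hn, ?_⟩
    simpa using hs
  · rintro ⟨n, hn, hs⟩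
    exact ⟨fun i => i.elim0, n, fun i => i.elim0, hn, by simpa using hs⟩

open Classical in
/-- **Main result.** -/
theorem result :
    -- two examples of regularly distributed sets
    Reg (1 / 2) 0 Set.univ ∧ Reg (1 / 2) 1 {p : ℕ | p.Prime} ∧
    -- `k + 2 + ⌊log₂ k⌋` variables
    (∀ (k : ℕ) (W : Fin (k + 2 + Nat.log 2 k) → Set ℕ) (c t : ℝ), 2 ≤ k → 0 < c → 0 ≤ t →
      (∀ i, Reg c t (W i)) →
      ∀ᵐ lam : Fin (k + 2 + Nat.log 2 k) → ℝ, (∀ i, 0 < lam i) →
        ∀ᶠ M : ℕ in atTop, Rep k (k + 2 + Nat.log 2 k) W lam M) ∧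
    -- the exceptional sets of `k + 1 + j` variables
    (∀ (k j : ℕ) (W : Fin (k + 1 + j) → Set ℕ) (c t β : ℝ), 3 ≤ k → 0 < c → 0 ≤ t →
      (∀ i, Reg c t (W i)) → 0 < β → 1 - 2 ^ j / (k : ℝ) < β →
      ∀ᵐ lam : Fin (k + 1 + j) → ℝ, (∀ i, 0 < lam i) → ∃ C : ℝ, ∀ X : ℕ, 1 ≤ X →
        (({M ∈ range (X + 1) | ¬ Rep k (k + 1 + j) W lam M} : Finset ℕ).card : ℝ) ≤
          C * (X : ℝ) ^ β) ∧
    -- `k` variables are not enough
    (∀ (k : ℕ) (lam : Fin k → ℝ), 2 ≤ k → (∀ i, 0 < lam i) →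
      Real.Gamma (1 / k + 1) ^ k * ∏ i, lam i ^ (-(1 / (k : ℝ))) < 1 →
        ∃ δ : ℝ, 0 < δ ∧ ∀ᶠ X : ℕ in atTop,
          δ * X ≤ ({M : ℕ | M ≤ X ∧ ¬ Rep k k (fun _ => Set.univ) lam M}.ncard : ℝ)) := by
  refine ⟨Pool.Agent.Run7.h757.MW.reg_univ, Pool.Agent.Run7.h416.MW.regp, ?_, ?_, ?_⟩
  · intro k W c t hk hc ht hW
    filter_upwards [Pool.Agent.Run7.h757.MW.rep_all k W c t hk hc ht hW] with lam hlam hpos
    filter_upwards [hlam hpos] with M hM
    exact (rep_iff k _ W lam M).1 hM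
  · intro k j W c t β hk hc ht hW hβ0 hβ
    filter_upwards [Pool.Agent.Run7.h757.MW.rep_exc k j W c t β hk hc ht hW hβ] with lam hlam hpos
    obtain ⟨C, hC⟩ := Pool.Agent.Run7.h757.MW.exc_X (hlam hpos) hβ0
    refine ⟨C, fun X hX => le_trans (le_of_eq ?_) (hC X hX)⟩
    congr 2
    ext M
    rw [mem_filter, mem_filter, rep_iff]
  · intro k lam hk hpos hG
    obtain ⟨δ, hδ, h⟩ := Pool.Agent.Run7.h56.MW.t_LOWB k lam hk hpos hG
    refine ⟨δ, hδ, ?_⟩
    filter_upwards [h] with X hX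
    refine hX.trans (le_of_eq ?_)
    congr 2
    ext M
    simp only [Rep, Set.mem_setOf_eq, Set.mem_univ, and_true]

end Pool.Agent.Results.MP_45c923_nt.MetricOrder
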