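import Pool.Agent.Run7.h274.WarGreedy

/-!
# Waring's problem for randomly perturbed k-th powers: linearly many summands

Let `k ≥ 2`, `0 < δ ≤ 1 - 1/k`, and replace every k-th power `x = n ^ k` by `x + ξ n`, where the
`ξ n` are independent random nonnegative integers of size at most `x ^ δ`, spread out in the sense
that each value `j ≤ x ^ δ` has probability at least `c / x ^ δ` (for instance uniform).
Almost surely:

* every large integer is a sum of at most `t` genuine k-th powers and at most `q` perturbed ones, and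
  also a sum of at most `t + q` perturbed k-th powers, for all `t`, `q` with
  `(1 - 1/k) ^ t < δ` and `q ≥ δ k`;
* so `s ≤ (log (1/δ) + δ) k + 2` perturbed k-th powers suffice: linear in `k` for fixed `δ`;
* fewer than `k + 1` never suffice.
-/

open MeasureTheory ProbabilityTheory Filter

namespace Pool.Agent.Results.MP_45c923_nt.PerturbedPowers

open Pool.Agent.Run7.h274.WarCore Pool.Agent.Run7.h274.WarOne Pool.Agent.Run7.h274.WarAsym
  Pool.Agent.Run7.h274.WarGreedy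

theorem result {Ω : Type*} [MeasurableSpace Ω] (P : Measure Ω) [IsProbabilityMeasure P]
    (k : ℕ) (hk : 2 ≤ k) (δ : ℝ) (hδ0 : 0 < δ) (hδ1 : δ ≤ 1 - 1 / (k : ℝ)) (c : ℝ) (hc : 0 < c)
    (ξ : ℕ → Ω → ℕ) (hm : ∀ n, Measurable (ξ n)) (hind : iIndepFun ξ P)
    (hle : ∀ n ω, (ξ n ω : ℝ) ≤ (n : ℝ) ^ (δ * k))
    (hdens : ∀ n j : ℕ, 1 ≤ n → (j : ℝ) ≤ (n : ℝ) ^ (δ * k) →
      c / (n : ℝ) ^ (δ * k) ≤ P.real {ω | ξ n ω = j}) :
    ∀ᵐ ω ∂P,
      (∀ t q : ℕ, (1 - 1 / (k : ℝ)) ^ t < δ → δ * k ≤ q → ∃ N₀ : ℕ, ∀ m : ℕ, N₀ ≤ m →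
        (∃ (a : Fin t → ℕ) (b : Fin q → ℕ),
          m = ∑ i, (a i) ^ k + ∑ i, ((b i) ^ k + ξ (b i) ω)) ∧
        (∃ b : Fin (t + q) → ℕ, m = ∑ i, ((b i) ^ k + ξ (b i) ω))) ∧
      (∃ s : ℕ, (s : ℝ) ≤ (Real.log (1 / δ) + δ) * k + 2 ∧ ∃ N₀ : ℕ, ∀ m : ℕ, N₀ ≤ m →
        ∃ b : Fin s → ℕ, m = ∑ i, ((b i) ^ k + ξ (b i) ω)) ∧
      (∀ s : ℕ, (∃ N₀ : ℕ, ∀ m : ℕ, N₀ ≤ m →
        ∃ b : Fin s → ℕ, m = ∑ i, ((b i) ^ k + ξ (b i) ω)) → k + 1 ≤ s) := by
  have hkR : (2 : ℝ) ≤ k := by exact_mod_cast hk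
  have hkpos : (0 : ℝ) < k := by linarith
  have hr0 : (0 : ℝ) ≤ 1 - 1 / (k : ℝ) := by
    rw [sub_nonneg, div_le_one hkpos]
    linarith
  have hδk : δ * k ≤ k - 1 := by
    have h1 : δ * k ≤ (1 - 1 / (k : ℝ)) * k := mul_le_mul_of_nonneg_right hδ1 hkpos.le
    have h2 : (1 - 1 / (k : ℝ)) * k = k - 1 := by field_simp
    linarith
  have hδkpos : 0 < δ * k := by positivity
  have hξ0 : ∀ ω, ξ 0 ω = 0 := by
    intro ω
    have h := hle 0 ω
    rw [Nat.cast_zero, Real.zero_rpow (ne_of_gt hδkpos)] at h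
    have : ξ 0 ω ≤ 0 := by exact_mod_cast h
    omega
  have hf0 : ∀ ω, 0 ^ k + ξ 0 ω = 0 := by
    intro ω
    rw [hξ0, zero_pow (by omega)]
  have hfup : ∀ ω n, n ^ k + ξ n ω ≤ (n + 1) ^ k := by
    intro ω n
    rcases Nat.eq_zero_or_pos n with rfl | hn
    · rw [hf0]
      exact Nat.zero_le _
    · refine le_trans (Nat.add_le_add_left ?_ _) (pow_gap n k (by omega))
      have h1 : (n : ℝ) ^ (δ * k) ≤ ((n ^ (k - 1) : ℕ) : ℝ) := by
        push_cast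
        rw [← Real.rpow_natCast]
        refine Real.rpow_le_rpow_of_exponent_le (by exact_mod_cast hn) ?_
        rw [Nat.cast_sub (by omega), Nat.cast_one]
        exact hδk
      exact_mod_cast le_trans (hle n ω) h1
  have hdens' : ∀ n j : ℕ, 1 ≤ n → (j : ℝ) ≤ (n : ℝ) ^ (δ * k) →
      c / (n : ℝ) ^ (δ * k) ≤ P.real (ξ n ⁻¹' {j}) := hdens
  -- the general statement
  have gen : ∀ᵐ ω ∂P, ∀ t q : ℕ, (1 - 1 / (k : ℝ)) ^ t < δ → δ * k ≤ q → ∃ N₀ : ℕ, ∀ m : ℕ,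
      N₀ ≤ m →
        (∃ (a : Fin t → ℕ) (b : Fin q → ℕ),
          m = ∑ i, (a i) ^ k + ∑ i, ((b i) ^ k + ξ (b i) ω)) ∧
        (∃ b : Fin (t + q) → ℕ, m = ∑ i, ((b i) ^ k + ξ (b i) ω)) := by
    rw [ae_all_iff]
    intro t
    rw [ae_all_iff]
    intro q
    by_cases ht : (1 - 1 / (k : ℝ)) ^ t < δ
    swap
    · exact Filter.Eventually.of_forall fun ω h => absurd h ht
    by_cases hq : δ * k ≤ q
    swap
    · exact Filter.Eventually.of_forall fun ω _ h => absurd h hq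
    have hκ0 : (0 : ℝ) ≤ (1 - 1 / (k : ℝ)) ^ t := pow_nonneg hr0 t
    -- genuine powers first
    obtain ⟨C, hC, hg⟩ := greedy k hk 1 le_rfl t
    obtain ⟨C', hC', hg'⟩ := greedy k hk (q + 1) (by omega) t
    have e1 := basis (P := P) ξ hm hind k hk δ hδ0 hδk c hc hdens' ((1 - 1 / (k : ℝ)) ^ t) hκ0 ht
      q hq C (fun _ _ => {z | ∃ a : Fin t → ℕ, z = ∑ i, (a i) ^ k}) (fun _ _ _ _ => rfl)
      (by
        intro N ω y hy
        obtain ⟨a, _, h2, h3⟩ := hg (fun n => n ^ k) (zero_pow (by omega))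
          (fun n => ⟨le_rfl, Nat.pow_le_pow_left (by omega) k⟩) y
        refine ⟨∑ i, (a i) ^ k, ⟨a, rfl⟩, h2, le_trans h3 ?_⟩
        refine mul_le_mul_of_nonneg_left (Real.rpow_le_rpow (Nat.cast_nonneg y) ?_ hκ0) hC.le
        exact_mod_cast hy)
    have e2 := basis (P := P) ξ hm hind k hk δ hδ0 hδk c hc hdens' ((1 - 1 / (k : ℝ)) ^ t) hκ0 ht
      q hq C' (fun N v => {z | ∃ a : Fin t → ℕ, (∀ i, a i % (q + 1) = 0 ∧ a i ≤ N) ∧
        z = ∑ i, ((a i) ^ k + v (a i))})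
      (by
        intro N v v' h
        ext z
        constructor
        · rintro ⟨a, ha, rfl⟩
          refine ⟨a, ha, Finset.sum_congr rfl fun i _ => ?_⟩
          rw [h (a i) (ha i).2 (ha i).1]
        · rintro ⟨a, ha, rfl⟩
          refine ⟨a, ha, Finset.sum_congr rfl fun i _ => ?_⟩
          rw [h (a i) (ha i).2 (ha i).1])
      (by
        intro N ω y hy
        obtain ⟨a, h1, h2, h3⟩ := hg' (fun n => n ^ k + ξ n ω) (hf0 ω)
          (fun n => ⟨Nat.le_add_right _ _, hfup ω n⟩) y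
        refine ⟨∑ i, ((a i) ^ k + ξ (a i) ω), ⟨a, fun i => ⟨(h1 i).1, le_trans (h1 i).2 hy⟩, rfl⟩,
          h2, le_trans h3 ?_⟩
        refine mul_le_mul_of_nonneg_left (Real.rpow_le_rpow (Nat.cast_nonneg y) ?_ hκ0) hC'.le
        exact_mod_cast hy)
    filter_upwards [e1, e2] with ω h1 h2 _ _
    obtain ⟨N₁, hN₁⟩ := eventually_atTop.mp h1
    obtain ⟨N₂, hN₂⟩ := eventually_atTop.mp h2
    refine ⟨max N₁ N₂, fun m hm => ⟨?_, ?_⟩⟩
    · obtain ⟨z, ⟨a, rfl⟩, b, hb⟩ := hN₁ m (le_trans (le_max_left _ _) hm)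
      exact ⟨a, b, hb⟩
    · obtain ⟨z, ⟨a, _, rfl⟩, b, hb⟩ := hN₂ m (le_trans (le_max_right _ _) hm)
      refine ⟨Fin.append a b, ?_⟩
      rw [Fin.sum_univ_add]
      simp only [Fin.append_left, Fin.append_right]
      exact hb
  filter_upwards [gen] with ω hω
  refine ⟨hω, ?_, ?_⟩
  · -- explicit choice of `t` and `q`
    have hlog : 0 < Real.log (1 / δ) := by
      refine Real.log_pos ?_
      rw [lt_div_iff₀ hδ0, one_mul]
      have : 0 < 1 / (k : ℝ) := by positivity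
      linarith
    set t : ℕ := ⌈Real.log (1 / δ) * k⌉₊ with ht
    set q : ℕ := ⌈δ * k⌉₊ with hq
    have ht1 : 1 ≤ t := Nat.one_le_ceil_iff.mpr (by positivity)
    have ht2 : (1 - 1 / (k : ℝ)) ^ t < δ := by
      have h1 : 1 - 1 / (k : ℝ) < Real.exp (-(1 / (k : ℝ))) := by
        have := Real.add_one_lt_exp (show -(1 / (k : ℝ)) ≠ 0 by
          rw [neg_ne_zero]; positivity)
        linarith
      have h2 : (1 - 1 / (k : ℝ)) ^ t < Real.exp (-(1 / (k : ℝ))) ^ t :=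
        pow_lt_pow_left₀ h1 hr0 (by omega)
      have h3 : Real.exp (-(1 / (k : ℝ))) ^ t ≤ δ := by
        rw [← Real.exp_nat_mul, ← Real.le_log_iff_exp_le hδ0]
        have h4 : Real.log (1 / δ) * k ≤ t := Nat.le_ceil _
        have h5 : Real.log (1 / δ) = -Real.log δ := by rw [one_div, Real.log_inv]
        rw [h5] at h4
        have h6 : (t : ℝ) * -(1 / (k : ℝ)) = -(t / k) := by ring
        rw [h6, neg_le, le_div_iff₀ hkpos]
        exact h4
      exact lt_of_lt_of_le h2 h3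
    have hq2 : δ * k ≤ q := Nat.le_ceil _
    obtain ⟨N₀, hN₀⟩ := hω t q ht2 hq2
    refine ⟨t + q, ?_, N₀, fun m hm => (hN₀ m hm).2⟩
    have h1 : (t : ℝ) < Real.log (1 / δ) * k + 1 := Nat.ceil_lt_add_one (by positivity)
    have h2 : (q : ℝ) < δ * k + 1 := Nat.ceil_lt_add_one (by positivity)
    push_cast
    linarith
  · rintro s ⟨N₀, hN₀⟩
    exact lower k hk (fun n => n ^ k + ξ n ω) (hf0 ω) (fun n => Nat.le_add_right _ _) s N₀ hN₀

end Pool.Agent.Results.MP_45c923_nt.PerturbedPowers
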